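import Pool.Agent.H42.NDC.Mov
import Pool.Agent.H30.LP.Ipa

/-!
# The dead jets of high order are few bits given the near path

In a ladder of windows: `vdn_all`: positions and velocities of the chain over the labels of an earlier
window from those over the labels of `w`. `jts_pa`: all jets of the chain over the labels of `w` from
the positions and velocities over the same labels. `dead_hi`: a jet of the target over the labels of
`w`, to at most the natural digits of an earlier window, is few bits given the near path at `w`.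
-/

set_option autoImplicit false

namespace Pool.NA28

open Finset Real MvPolynomial
open Pool.Agent.H49.Ent Pool.Agent.H32.Dense Pool.STK Pool.KA Pool.KSAT Pool.K2S Pool.PB Pool.GEN
open Pool.S6C Pool.RCD Pool.LA91 Pool.AVG96
open Pool.OWN68 (F1 F0 few0_room few0_iff few_iff F1.mono)
open Pool.V0F
open Pool.LP30 (paQ)
open Pool.NDC42 (mov_jets mov_tgt few_cut)

variable {m : ℕ} {S : PCl m} {c : ℕ → Fin m} {r : ℕ} {sn : ℕ → ℝ → ℝ} {G : Set ℝ} {b o φ : ℝ}

variable {α γ : ∀ J : ℕ, Fam m J → Type}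
  {f : ∀ (J : ℕ) (F : Fam m J), F.Ω → α J F} {y : ∀ (J : ℕ) (F : Fam m J), F.Ω → γ J F}

/-- **One step** to an earlier window, for positions and velocities. -/
theorem vdn_one (L : Lad S c r sn G b o φ)
    (hf : ∀ (J : ℕ) (F : Fam m J), ∃ χ : α J F → PtT F, ∀ ω, ptr F J ω = χ (f J F ω))
    (hy : Kn ((range 0).image c) 1 1 y) {w : ℝ} {n : ℕ → ℝ} (hw : w ∈ G) (hwo : w ≤ o)
    (hn : Nst r sn w φ n) {v v' : ℝ} (hv : v ∈ G) (hv' : v' ∈ G) (hbv : b ≤ v) (hvv : v ≤ v')
    (hv3 : v' ≤ v + 3 * φ) (hvw : v' ≤ w) {i : ℕ} (hi : i < r) {pi : ℝ} (hpi : sn i v - φ ≤ pi)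
    {j : ℕ} (hj : j ≤ 1) :
    Few S f (vg v') y (jetQ m c 0 r v' (fun l => sn l v') (fun l j' => n l - (j' : ℝ) * w))
      (qJet m ((range i).image c) (c i) j v pi (n i - (j : ℝ) * w)) := by
  obtain ⟨C₀, htm⟩ := L.tm
  obtain ⟨u₁, rd, hrd, hch⟩ := L.ch.ch v' hv'
  have hφ := L.φ0
  have hv1 : v' < 1 := hch.u0
  have hv0 : 0 ≤ v' := hch.w0
  have hmin : min (1 : ℝ) (1 - v') = 1 - v' := min_eq_right (by linarith)
  -- the levels
  have d1' : ∀ i < r, sn i v ≤ sn i v' + 2 * φ := fun i hi => by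
    have := L.dif hi hv' hv (by linarith) (by linarith) (by linarith) (by linarith)
    linarith
  have d2 : ∀ i < r, sn i w - sn i v' ≤ w - v' + 2 * φ := fun i hi =>
    L.dif hi hv' hw (by linarith) (by linarith) (by linarith) hwo
  have d3 : ∀ i < r, w - v' - 2 * φ ≤ sn i w - sn i v' := fun i hi => by
    have := L.dif hi hw hv' (by linarith) hwo (by linarith) (by linarith)
    linarith
  have d4 : ∀ i < r, sn i v' - 5 * φ ≤ sn i v := fun i hi => by
    have := L.dif hi hv hv' (by linarith) (by linarith) (by linarith) (by linarith)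
    linarith
  have hmn : sn i v' - 6 * φ ≤ min (sn i v') pi := le_min (by linarith) (by linarith [d4 i hi])
  obtain ⟨X, hX⟩ : ∃ X : ℝ, X = (j : ℝ) * (w - v') := ⟨_, rfl⟩
  have hj0 : (0 : ℝ) ≤ j := Nat.cast_nonneg _
  have hj1 : (j : ℝ) ≤ 1 := by exact_mod_cast hj
  have hX0 : 0 ≤ X := by
    rw [hX]
    exact mul_nonneg hj0 (by linarith)
  have hX1 : X ≤ w - v' := by
    have : (j : ℝ) * (w - v') ≤ 1 * (w - v') := mul_le_mul_of_nonneg_right hj1 (by linarith)
    rw [hX]
    linarith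
  have eX : n i - (j : ℝ) * w + (j : ℝ) * v' = n i - X := by rw [hX]; ring
  have e4 := hn.hi i hi
  have e5 := d2 i hi
  have e6 := d3 i hi
  obtain ⟨lv, hlv⟩ : ∃ lv : ℕ → ℝ, lv = fun l => n l - X - sn l v' - φ := ⟨_, rfl⟩
  have key := few_jetN (f := f) (y := y) htm (hch.take (Nat.zero_le i) hi.le) (k := c i)
    (j := j) (wv := fun _ _ => v') (pv := fun l _ => sn l v')
    (Nv := fun l j' => n l - (j' : ℝ) * w)
    (lv := lv) (w₁ := v') (w₂ := v) (p₁ := sn i v') (p₂ := pi)
    (N₁ := n i - (j : ℝ) * w) (N₂ := n i - (j : ℝ) * w) (p₀ := 1) (lam := 1) (σ₀ := φ)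
    (fun _ _ _ _ _ => le_rfl) le_rfl hvv hv1 le_rfl one_pos hφ (by
      intro l _ hl
      have k1 := hn.lo l (by omega)
      have k2 := d3 l (by omega)
      rw [hlv]
      show 0 < n l - X - sn l v' - φ
      linarith) (by
      intro l _ hl j'' hj''
      rw [hlv]
      show sn l v' + (n l - X - sn l v' - φ) + φ ≤ n l - (j'' : ℝ) * w + (j'' : ℝ) * v'
      have k1 : (j'' : ℝ) ≤ j := by exact_mod_cast hj''
      have k3 : (j'' : ℝ) * (w - v') ≤ j * (w - v') :=
        mul_le_mul_of_nonneg_right k1 (by linarith)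
      have k4 : (j'' : ℝ) * (w - v') = j'' * w - j'' * v' := by ring
      rw [← hX] at k3
      linarith) (by
      intro l _ hl j'' hj''
      have k1 := hn.hi l (by omega)
      have k3 := d2 l (by omega)
      rw [hlv, hmin, min_self]
      show sn l v' + (n l - X - sn l v' - φ) + φ ≤ sn l v' + (1 - v')
      linarith) (by
      intro l _ hl j'' hj'' l' _ hl'
      have k1 := hn.ne l (by omega) l' hl'
      have k3 := d3 l (by omega)
      have k5 := d2 l' (by omega)
      have k6 := d2 l (by omega)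
      have k7 := d3 l' (by omega)
      rw [hlv, min_self]
      show sn l v' + (n l - X - sn l v' - φ) + φ ≤ sn l v' + (n l' - X - sn l' v' - φ)
      linarith) le_rfl (by
      rw [hmin, eX]
      linarith) (by
      intro l _ hl
      have k1 := hn.ne i hi l hl
      have k3 := d3 l (by omega)
      have k5 := d2 l (by omega)
      rw [hlv, eX]
      show n i - X + φ ≤ min (sn i v') pi + (n l - X - sn l v' - φ)
      linarith) hf hy
  refine Few.pre L.pos (fun u : ℕ → ℕ → ℤ => ((fun l j'' => if 0 ≤ l ∧ l < i ∧ j'' ≤ j then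
    u l j'' else 0), u i j)) ?_ key
  intro K e J F A u hu
  exact ⟨qJets_take hi.le hj hu, hu.1 i (Nat.zero_le _) hi j hj⟩

/-- **Positions and velocities over the labels of an earlier window.** -/
theorem vdn_all (L : Lad S c r sn G b o φ)
    (hf : ∀ (J : ℕ) (F : Fam m J), ∃ χ : α J F → PtT F, ∀ ω, ptr F J ω = χ (f J F ω))
    (hy : Kn ((range 0).image c) 1 1 y) {w : ℝ} {n : ℕ → ℝ} (hw : w ∈ G)
    (hwo : w ≤ o) (hn : Nst r sn w φ n) (k : ℕ) :
    ∀ v ∈ G, b ≤ v → v ≤ w → w - v ≤ k * φ →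
    Few S f (vg w) y (jetQ m c 0 r w (fun l => sn l w) (fun l j => n l - (j : ℝ) * w))
      (jetQ m c 0 r v (fun l => sn l v) (fun l j => n l - (j : ℝ) * w)) := by
  have hφ := L.φ0
  have hxs : ∀ x ∈ G, Exs S (jetQ m c 0 r x (fun l => sn l x) (fun l j => n l - (j : ℝ) * w)) :=
    fun x hx => by
      obtain ⟨u₁, rd, hrd, hch⟩ := L.ch.ch x hx
      exact exs_qjets fun l l0 l1 j' _ => exs_jet (hrd l l1) (hch.att l l0 l1)
  have hstep : ∀ x ∈ G, ∀ v ∈ G, b ≤ v → v ≤ x → x ≤ v + 3 * φ → x ≤ w →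
      Few S f (vg x) y (jetQ m c 0 r x (fun l => sn l x) (fun l j => n l - (j : ℝ) * w))
        (jetQ m c 0 r v (fun l => sn l v) (fun l j => n l - (j : ℝ) * w)) := by
    intro x hx v hv hbv hvx hx3 hxw
    exact few_qjets L.pos fun i _ hi j hj =>
      vdn_one L hf hy hw hwo hn hv hx hbv hvx hx3 hxw hi (by linarith) hj
  induction k with
  | zero =>
    intro v hv hbv hvw h1
    rw [Nat.cast_zero, zero_mul] at h1
    exact hstep w hw v hv hbv hvw (by linarith) le_rfl
  | succ k ih =>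
    intro v hv hbv hvw h1
    rcases le_or_gt (w - v) (3 * φ) with h2 | h2
    · exact hstep w hw v hv hbv hvw (by linarith) le_rfl
    obtain ⟨x, hx, h3⟩ := L.gap (v + 2 * φ) (by linarith) (by linarith)
    have h4 := abs_le.1 h3
    push_cast at h1
    have h5 := ih x hx (by linarith [h4.1]) (by linarith [h4.2]) (by linarith [h4.1])
    obtain ⟨u₂, rd₂, hrd₂, hch₂⟩ := L.ch.ch w hw
    have hup : ∀ (J : ℕ) (F : Fam m J), ∃ χ : LnT F → LnT F, ∀ ω,
        vg x J F ω = χ (vg w J F ω) := fun J F => vg_mono (by linarith [h4.2]) hch₂.u0.le J F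
    exact Few.trans L.pos (hxs x hx) h5
      (Few.up (f' := f) (y' := y) L.pos (fun J F => ⟨fun x => x, fun _ => rfl⟩) hup
        (fun J F => ⟨fun x => x, fun _ => rfl⟩)
        (hstep x hx v hv hbv (by linarith [h4.1]) (by linarith [h4.2]) (by linarith [h4.2])))

/-- **All jets over the labels of** `w` from positions and velocities over the same labels. -/
theorem jts_jt (L : Lad S c r sn G b o φ)
    (hf : ∀ (J : ℕ) (F : Fam m J), ∃ χ : α J F → PtT F, ∀ ω, ptr F J ω = χ (f J F ω))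
    (hy : Kn ((range 0).image c) 1 1 y) {w : ℝ} {n : ℕ → ℝ} (hw : w ∈ G) (hbw : b ≤ w)
    (hwo : w ≤ o) (hn : Nst r sn w φ n) (hnat : ∀ i < r, n i - sn i w + 3 * φ ≤ w - b) (Jm : ℕ) :
    Few S f (vg w) y (jetQ m c 0 r w (fun l => sn l w) (fun l j => n l - (j : ℝ) * w))
      (qJets m c 0 r Jm (fun _ _ => w) (fun l _ => sn l w) (fun l j => n l - (j : ℝ) * w)) := by
  have hφ := L.φ0
  obtain ⟨k, hk⟩ := exists_nat_ge ((w - b) / φ)
  rw [div_le_iff₀ hφ] at hk
  obtain ⟨u₁, rd, hrd, hch⟩ := L.ch.ch b L.bG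
  have hxs : Exs S (jetQ m c 0 r b (fun l => sn l b) (fun l j => n l - (j : ℝ) * w)) :=
    exs_qjets fun l l0 l1 j' _ => exs_jet (hrd l l1) (hch.att l l0 l1)
  refine Few.trans L.pos hxs (vdn_all L hf hy hw hwo hn k b L.bG le_rfl hbw hk) ?_
  exact vuj_all L hf hy hw hbw hwo hn (p := fun l => sn l b) (fun i _ => by linarith) hnat
    (Nf := fun l j => n l - (j : ℝ) * w) (fun _ _ _ _ => le_rfl) Jm k w hw hbw le_rfl hk

/-- Position and velocity of the near path, as `jetQ`. -/
theorem paQ_jt {w : ℝ} {p n : ℕ → ℝ} {K : ℕ} {e : ℝ} {J : ℕ} {F : Fam m J} {A : F.Ω → Prop}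
    {u : F.Ω → ℕ → ℕ → ℤ} (hu : (paQ m c r w p n (fun l => n l - w)).P K e J F A u) :
    (jetQ m c 0 r w p (fun l j => n l - (j : ℝ) * w)).P K e J F A u := by
  refine ⟨fun l l0 hl j hj => ?_, hu.2⟩
  have h1 := hu.1 l l0 hl j hj
  rcases Nat.eq_zero_or_pos j with rfl | hj0
  · have e1 : n l - ((0 : ℕ) : ℝ) * w = n l := by rw [Nat.cast_zero, zero_mul, sub_zero]
    simp only [if_true] at h1
    show (qJet m ((range l).image c) (c l) 0 w (p l) (n l - ((0 : ℕ) : ℝ) * w)).P K e J F A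
      (fun ω => u ω l 0)
    rw [e1]
    exact h1
  · obtain rfl : j = 1 := by omega
    have e1 : n l - ((1 : ℕ) : ℝ) * w = n l - w := by rw [Nat.cast_one, one_mul]
    simp only [one_ne_zero, if_false] at h1
    show (qJet m ((range l).image c) (c l) 1 w (p l) (n l - ((1 : ℕ) : ℝ) * w)).P K e J F A
      (fun ω => u ω l 1)
    rw [e1]
    exact h1

/-- **All jets over the labels of** `w` from the near path at `w`, precisions `p`. -/
theorem jts_pa (L : Lad S c r sn G b o φ)
    (hf : ∀ (J : ℕ) (F : Fam m J), ∃ χ : α J F → PtT F, ∀ ω, ptr F J ω = χ (f J F ω))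
    (hy : Kn ((range 0).image c) 1 1 y) {w : ℝ} {n p p' : ℕ → ℝ} (hw : w ∈ G) (hbw : b ≤ w)
    (hwo : w ≤ o) (hn : Nst r sn w φ n) (hnat : ∀ i < r, n i - sn i w + 3 * φ ≤ w - b)
    (hp : ∀ i < r, sn i w - φ ≤ p i) (hp' : ∀ i < r, sn i w - φ ≤ p' i) (Jm : ℕ) :
    Few S f (vg w) y (paQ m c r w p n (fun l => n l - w))
      (qJets m c 0 r Jm (fun _ _ => w) (fun l _ => p' l) (fun l j => n l - (j : ℝ) * w)) := by
  obtain ⟨C₀, htm⟩ := L.tm
  have hφ := L.φ0
  obtain ⟨u₁, rd, hrd, hch⟩ := L.ch.ch w hw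
  have hsn : ∀ i < r, sn i w - φ ≤ min (p i) (sn i w) := fun i hi =>
    le_min (hp i hi) (by linarith)
  have hsn' : ∀ i < r, sn i w - φ ≤ min (sn i w) (p' i) := fun i hi =>
    le_min (by linarith) (hp' i hi)
  have hx1 : Exs S (jetQ m c 0 r w (fun l => sn l w) (fun l j => n l - (j : ℝ) * w)) :=
    exs_qjets fun l l0 l1 j' _ => exs_jet (hrd l l1) (hch.att l l0 l1)
  have hx2 : Exs S (qJets m c 0 r Jm (fun _ _ => w) (fun l _ => sn l w)
      (fun l j => n l - (j : ℝ) * w)) :=
    exs_qjets fun l l0 l1 j' _ => exs_jet (hrd l l1) (hch.att l l0 l1)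
  -- other precisions
  have h1 := mov_jets (f := f) (y := y) htm L.pos hch hf hy (v := w) (σ := φ) (p := p)
    (p' := fun l => sn l w) (n := n) (n' := n) (Jm := 1) hφ le_rfl hp
    (fun i hi => by have := hn.lo i hi; linarith) (fun i hi => by have := hn.hi i hi; linarith)
    (fun i hi l hl => by have := hn.ne i hi l hl; linarith)
    (fun i hi => by rw [sub_self, mul_zero, add_zero])
    (fun i hi => by
      have h2 := hn.hi i hi
      have h3 := hsn i hi
      rw [sub_self, mul_zero, add_zero]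
      linarith)
    (fun i hi l hl => by
      have h2 := hn.ne i hi l hl
      have h3 := hsn i hi
      rw [sub_self, mul_zero, add_zero]
      linarith)
  have h3 := mov_jets (f := f) (y := y) htm L.pos hch hf hy (v := w) (σ := φ)
    (p := fun l => sn l w) (p' := p') (n := n) (n' := n) (Jm := Jm) hφ le_rfl
    (fun i hi => by linarith)
    (fun i hi => by have := hn.lo i hi; linarith) (fun i hi => by have := hn.hi i hi; linarith)
    (fun i hi l hl => by have := hn.ne i hi l hl; linarith)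
    (fun i hi => by rw [sub_self, mul_zero, add_zero])
    (fun i hi => by
      have h2 := hn.hi i hi
      have h3 := hsn' i hi
      rw [sub_self, mul_zero, add_zero]
      linarith)
    (fun i hi l hl => by
      have h2 := hn.ne i hi l hl
      have h3 := hsn' i hi
      rw [sub_self, mul_zero, add_zero]
      linarith)
  have h4 : Few S f (vg w) y (paQ m c r w p n (fun l => n l - w))
      (jetQ m c 0 r w (fun l => sn l w) (fun l j => n l - (j : ℝ) * w)) :=
    Few.pre L.pos (fun u : ℕ → ℕ → ℤ => u) (fun K e J F A u hu => paQ_jt hu) h1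
  exact Few.trans L.pos hx2 (Few.trans L.pos hx1 h4 (jts_jt L hf hy hw hbw hwo hn hnat Jm)) h3

/-- **The dead jets of high order are few bits given the near path**: the jet of order `j` of the
target over the labels of `w`, to at most the natural digits of the earlier window `v`. -/
theorem dead_hi (L : Lad S c r sn G b o φ)
    (hf : ∀ (J : ℕ) (F : Fam m J), ∃ χ : α J F → PtT F, ∀ ω, ptr F J ω = χ (f J F ω))
    (hy : Kn ((range 0).image c) 1 1 y) {v w N pw : ℝ} {n p : ℕ → ℝ} {k : Fin m} {T : ℝ → ℝ} {j : ℕ}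
    (hw : w ∈ G) (hbw : b ≤ w) (hwo : w ≤ o) (hn : Nst r sn w φ n)
    (hnat : ∀ i < r, n i - sn i w + 3 * φ ≤ w - b) (hp : ∀ i < r, sn i w - φ ≤ p i)
    (hv0 : 0 ≤ v) (hvw : v ≤ w) (hat : ∃ rk, 0 ≤ rk ∧ Att S ((range r).image c) k v (T v) rk)
    (hN : N ≤ T v - (j : ℝ) * v) (h3 : N + (j : ℝ) * w + φ ≤ min (T v) pw + (1 - w))
    (h3' : ∀ l < r, N + (j : ℝ) * w + 2 * φ ≤ min (T v) pw + (n l - sn l w)) :
    Few S f (vg w) y (paQ m c r w p n (fun l => n l - w))
      (qJet m ((range r).image c) k j w pw N) := by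
  obtain ⟨C₀, htm⟩ := L.tm
  have hφ := L.φ0
  obtain ⟨u₁, rd, hrd, hch⟩ := L.ch.ch w hw
  have hv1 : v < 1 := lt_of_le_of_lt hvw hch.u0
  obtain ⟨rk, hrk, hat⟩ := hat
  have hx1 : Exs S (qJets m c 0 r j (fun _ _ => w) (fun l _ => sn l w)
      (fun l j' => n l - (j' : ℝ) * w)) :=
    exs_qjets fun l l0 l1 j' _ => exs_jet (hrd l l1) (hch.att l l0 l1)
  have hx2 : Exs S (qJet m ((range r).image c) k j v (T v) (T v - (j : ℝ) * v)) :=
    exs_jet hrk hat
  have hjw : (j : ℝ) * (w - v) = j * w - j * v := by ring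
  have key := mov_tgt (f := f) (y := y) htm hch hf hy (v := v) (σ := φ) (pv := T v) (pw := pw)
    (N := N + (j : ℝ) * w) (N' := T v) (p := fun l => sn l w) (n := n) (k := k) (j := j) hφ hvw
    (fun i hi => by linarith) (fun i hi => by have := hn.lo i hi; linarith)
    (fun i hi => by have := hn.hi i hi; linarith)
    (fun i hi l hl => by have := hn.ne i hi l hl; linarith) (by linarith) h3 h3'
  have e1 : N + (j : ℝ) * w - (j : ℝ) * w = N := by ring
  rw [e1] at key
  have h0 : Few0 S f (vg w) y (qJet m ((range r).image c) k j v (T v) (T v - (j : ℝ) * v)) :=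
    few0_jet htm hv0 hv1 (by linarith) _ _ _
  refine few_cut htm hx1 (jts_pa L hf hy hw hbw hwo hn hnat hp (fun i _ => by linarith) j) ?_
  refine few_cut htm hx2 (Few0.few L.pos h0) ?_
  refine Few.pre L.pos (fun u : ((ℕ → ℕ → ℤ) × (ℕ → ℕ → ℤ)) × ℤ => (u.1.2, u.2)) ?_ key
  intro K e J F A u hu
  exact ⟨hu.1.2, hu.2⟩

end Pool.NA28
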